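import Pool.Agent.Run7.h425.Tensor

set_option autoImplicit false

namespace Pool.Agent.Run7.h425

open Finset

/-- The sets obtained for given parameters. -/
theorem exists_set (k m : ℕ) :
    ∃ A : Finset ℕ, A ⊆ Finset.range (2 ^ ((2 * k + 1) * m)) ∧ OnlyTriv A ∧
      2 ^ (k * m) ≤ (m + 1) * 2 ^ (k * (k + 1)) * A.card := by
  obtain ⟨D, f, hD, hcard, hf, hgood⟩ := pal k
  obtain ⟨A, hA, hA2, hA3⟩ := tensor D f (len k) (wt k) hD hf hgood m
  refine ⟨A, ?_, hA2, ?_⟩
  · intro x hx
    have h1 := Finset.mem_range.1 (hA hx)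
    rw [Finset.mem_range]
    refine lt_of_lt_of_le h1 ?_
    rw [pow_mul]
    apply Nat.pow_le_pow_left
    have h2 := len_eq k
    have h3 : 2 ^ (2 * k + 1) = 2 * 4 ^ k := by
      rw [pow_succ, pow_mul]; norm_num; ring
    omega
  · rw [hcard, ← pow_mul] at hA3
    refine hA3.trans ?_
    apply Nat.mul_le_mul_right
    have h1 := wt_lt k
    calc m * wt k + 1 ≤ (m + 1) * (wt k + 1) := by nlinarith
      _ ≤ (m + 1) * 2 ^ (k * (k + 1)) := Nat.mul_le_mul_left _ h1

theorem growth (N : ℕ) (hN : 1 ≤ N) :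
    ∃ A : Finset ℕ, A ⊆ Finset.range N ∧ OnlyTriv A ∧
      Real.sqrt N * Real.exp (-(30 * (Real.log N) ^ ((2 : ℝ) / 3))) ≤ (A.card : ℝ) := by
  rcases Nat.lt_or_ge N 2 with h2 | h2
  · have : N = 1 := by omega
    subst this
    refine ⟨{0}, by simp, ?_, ?_⟩
    · intro a ha b hb c hc d hd e he _
      rw [Finset.mem_singleton] at ha hb hc hd he
      subst ha hb hc hd he
      simp
    · have : (0 : ℝ) ^ ((2 : ℝ) / 3) = 0 := Real.zero_rpow (by norm_num)
      simp [this]
  · have hNpos : (0 : ℝ) < N := by positivity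
    set lam : ℝ := Real.log N with hlam
    have hl2 : (0.69 : ℝ) ≤ Real.log 2 := by have := Real.log_two_gt_d9; linarith
    have hl2' : Real.log 2 ≤ 0.7 := by have := Real.log_two_lt_d9; linarith
    have hlamge : Real.log 2 ≤ lam := Real.log_le_log (by norm_num) (by exact_mod_cast h2)
    have hlam0 : 0 < lam := by linarith
    set t : ℝ := lam ^ ((1 : ℝ) / 3) with ht
    have ht0 : 0 < t := Real.rpow_pos_of_pos hlam0 _
    have ht3 : t ^ 3 = lam := by
      rw [ht, ← Real.rpow_natCast, ← Real.rpow_mul hlam0.le]; norm_num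
    have ht2 : lam ^ ((2 : ℝ) / 3) = t ^ 2 := by
      rw [ht, ← Real.rpow_natCast, ← Real.rpow_mul hlam0.le]; norm_num
    have ht8 : (0.8 : ℝ) ≤ t := by
      by_contra hcon
      push Not at hcon
      have : t ^ 3 < 0.8 ^ 3 := pow_lt_pow_left₀ hcon ht0.le (by norm_num)
      rw [ht3] at this
      norm_num at this
      linarith
    set k : ℕ := ⌈t⌉₊ with hk
    have hk1 : t ≤ k := Nat.le_ceil t
    have hk2 : (k : ℝ) ≤ t + 1 := (Nat.ceil_lt_add_one ht0.le).le
    have hk0 : (0 : ℝ) < k := by linarith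
    set n : ℕ := Nat.log 2 N with hn
    have hn1 : 2 ^ n ≤ N := Nat.pow_log_le_self 2 (by omega)
    have hn2 : N < 2 ^ (n + 1) := Nat.lt_pow_succ_log_self (by norm_num) N
    have hn1' : (n : ℝ) * Real.log 2 ≤ lam := by
      rw [hlam, ← Real.log_pow]
      apply Real.log_le_log (by positivity)
      exact_mod_cast hn1
    have hn2' : lam ≤ ((n : ℝ) + 1) * Real.log 2 := by
      have h3 : Real.log N ≤ Real.log ((2 : ℝ) ^ (n + 1)) := by
        apply Real.log_le_log hNpos
        exact_mod_cast hn2.le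
      rw [Real.log_pow] at h3
      push_cast at h3
      exact h3
    set m : ℕ := n / (2 * k + 1) with hm
    have hm1 : (2 * k + 1) * m ≤ n := Nat.mul_div_le n (2 * k + 1)
    have hm2 : n < (2 * k + 1) * (m + 1) := Nat.lt_mul_div_succ n (by omega)
    have hm2' : (n : ℝ) + 1 ≤ (2 * k + 1) * (m + 1) := by exact_mod_cast hm2
    obtain ⟨A, hA, hA2, hA3⟩ := exists_set k m
    refine ⟨A, ?_, hA2, ?_⟩
    · intro x hx
      have h1 := Finset.mem_range.1 (hA hx)
      rw [Finset.mem_range]
      exact lt_of_lt_of_le h1 ((Nat.pow_le_pow_right (by norm_num) hm1).trans hn1)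
    · have hA3' : (2 : ℝ) ^ (k * m) ≤ ((m : ℝ) + 1) * 2 ^ (k * (k + 1)) * A.card := by
        exact_mod_cast hA3
      have hApos : (0 : ℝ) < A.card := by
        by_contra hcon
        have h0 : (A.card : ℝ) = 0 := le_antisymm (not_lt.1 hcon) (Nat.cast_nonneg _)
        rw [h0, mul_zero] at hA3'
        have : (0 : ℝ) < 2 ^ (k * m) := by positivity
        linarith
      have hlog : (k : ℝ) * m * Real.log 2 ≤
          Real.log ((m : ℝ) + 1) + (k : ℝ) * (k + 1) * Real.log 2 + Real.log A.card := by
        have h1 := Real.log_le_log (by positivity) hA3'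
        rw [Real.log_pow, Real.log_mul (by positivity) (by positivity),
          Real.log_mul (by positivity) (by positivity), Real.log_pow] at h1
        push_cast at h1
        exact h1
      -- bound for log (m+1)
      have hlogm : Real.log ((m : ℝ) + 1) ≤ 6 * t := by
        have h1 : (m : ℝ) + 1 ≤ (2 * t + 1) ^ 3 := by
          have h2 : (m : ℝ) ≤ n := by
            have : m ≤ n := Nat.div_le_self _ _
            exact_mod_cast this
          have h3 : (n : ℝ) ≤ 2 * lam := by nlinarith
          nlinarith [ht3, pow_pos ht0 2]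
        have h2 : Real.log ((m : ℝ) + 1) ≤ Real.log ((2 * t + 1) ^ 3) :=
          Real.log_le_log (by positivity) h1
        rw [Real.log_pow] at h2
        have h3 := Real.log_le_sub_one_of_pos (by linarith : (0 : ℝ) < 2 * t + 1)
        push_cast at h2
        linarith
      have hkm : lam / 2 - t ^ 2 / 4 - (t + 1) * Real.log 2 ≤ (k : ℝ) * m * Real.log 2 := by
        have h1 : lam ≤ (2 * k + 1) * (m + 1) * Real.log 2 :=
          hn2'.trans (mul_le_mul_of_nonneg_right hm2' (by linarith))
        have h2 : lam * k / (2 * k + 1) ≤ k * ((m + 1) * Real.log 2) := by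
          rw [div_le_iff₀ (by positivity)]
          nlinarith
        have h3 : lam / 2 - t ^ 2 / 4 ≤ lam * k / (2 * k + 1) := by
          rw [le_div_iff₀ (by positivity)]
          have h4 : lam ≤ t ^ 2 * k := by
            rw [← ht3, pow_succ]
            exact mul_le_mul_of_nonneg_left hk1 (by positivity)
          nlinarith [sq_nonneg t]
        have h5 : (k : ℝ) * Real.log 2 ≤ (t + 1) * Real.log 2 :=
          mul_le_mul_of_nonneg_right hk2 (by linarith)
        nlinarith
      have hkk : (k : ℝ) * (k + 1) * Real.log 2 ≤ (t + 1) * (t + 2) := by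
        have h1 : (k : ℝ) * (k + 1) ≤ (t + 1) * (t + 2) := by nlinarith
        have h2 : (0 : ℝ) ≤ (k : ℝ) * (k + 1) := by positivity
        nlinarith
      have hmain : lam / 2 - 30 * t ^ 2 ≤ Real.log A.card := by
        have h1 : (t + 1) * Real.log 2 ≤ t + 1 := by nlinarith
        nlinarith
      have hfin : Real.sqrt N * Real.exp (-(30 * lam ^ ((2 : ℝ) / 3))) =
          Real.exp (lam / 2 - 30 * t ^ 2) := by
        rw [ht2, sub_eq_add_neg, Real.exp_add]
        congr 1
        rw [hlam, Real.sqrt_eq_rpow, Real.rpow_def_of_pos hNpos]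
        congr 1
        ring
      rw [hfin, ← Real.exp_log hApos]
      exact Real.exp_le_exp.2 hmain

end Pool.Agent.Run7.h425
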