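import Mathlib

set_option autoImplicit false

namespace Pool.Agent.Run7.h425

open Finset

/-- Lengths of the digit sets. -/
def len : ℕ → ℕ
  | 0 => 0
  | k + 1 => 4 * len k + 1

/-- Bounds for the weights. -/
def wt : ℕ → ℕ
  | 0 => 0
  | k + 1 => (2 * wt k + 1) * len (k + 1) + wt k

theorem len_eq (k : ℕ) : 3 * len k + 1 = 4 ^ k := by
  induction k with
  | zero => simp [len]
  | succ k ih => rw [len, pow_succ, ← ih]; ring

theorem wt_lt (k : ℕ) : wt k + 1 ≤ 2 ^ (k * (k + 1)) := by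
  induction k with
  | zero => simp [wt]
  | succ k ih =>
    have h1 := len_eq (k + 1)
    have h2 : 2 ^ ((k + 1) * (k + 1 + 1)) = 2 ^ (k * (k + 1)) * 4 ^ (k + 1) := by
      rw [show (4 : ℕ) = 2 ^ 2 by norm_num, ← pow_mul, ← pow_add]
      congr 1
      ring
    rw [h2, wt, ← h1]
    have h3 : 1 ≤ len (k + 1) := by rw [len]; omega
    nlinarith

/-- The statement about a digit set with a potential. -/
def Good (D : Finset ℕ) (f : ℕ → ℤ) : Prop :=
  ∀ a ∈ D, ∀ b ∈ D, ∀ c ∈ D, ∀ d ∈ D, ∀ e ∈ D, 2 * (a + b + c) = 3 * (d + e) →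
    3 * (f d + f e) ≤ 2 * (f a + f b + f c) ∧
      (2 * (f a + f b + f c) = 3 * (f d + f e) → a = e ∧ b = e ∧ c = e ∧ d = e)

theorem good_succ (D : Finset ℕ) (f : ℕ → ℤ) (l F : ℕ) (hD : ∀ x ∈ D, x ≤ l)
    (hf : ∀ x ∈ D, 0 ≤ f x ∧ f x ≤ F) (h : Good D f) :
    Good (D.image (fun y => 2 * y) ∪ D.image (fun y => 2 * y + (2 * l + 1)))
      (fun x => if x ≤ 2 * l then (2 * F + 1 : ℤ) * ((4 * l + 1 : ℤ) - 2 * x) + f (x / 2)
        else (2 * F + 1 : ℤ) * (2 * x - (4 * l + 1 : ℤ)) + f ((x - (2 * l + 1)) / 2)) := by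
  set g : ℕ → ℤ := fun x => if x ≤ 2 * l then (2 * F + 1 : ℤ) * ((4 * l + 1 : ℤ) - 2 * x) + f (x / 2)
        else (2 * F + 1 : ℤ) * (2 * x - (4 * l + 1 : ℤ)) + f ((x - (2 * l + 1)) / 2) with hg
  have key : ∀ x ∈ D.image (fun y => 2 * y) ∪ D.image (fun y => 2 * y + (2 * l + 1)),
      ∃ y ∈ D, (x = 2 * y ∧ g x = (2 * F + 1 : ℤ) * ((4 * l + 1 : ℤ) - 2 * x) + f y) ∨
        (x = 2 * y + (2 * l + 1) ∧ g x = (2 * F + 1 : ℤ) * (2 * x - (4 * l + 1 : ℤ)) + f y) := by
    intro x hx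
    rw [Finset.mem_union, Finset.mem_image, Finset.mem_image] at hx
    rcases hx with ⟨y, hy, rfl⟩ | ⟨y, hy, rfl⟩
    · refine ⟨y, hy, Or.inl ⟨rfl, ?_⟩⟩
      have h1 := hD y hy
      have h2 : 2 * y ≤ 2 * l := by omega
      have h3 : 2 * y / 2 = y := by omega
      simp only [hg, if_pos h2, h3]
    · refine ⟨y, hy, Or.inr ⟨rfl, ?_⟩⟩
      have h2 : ¬ (2 * y + (2 * l + 1) ≤ 2 * l) := by omega
      have h3 : (2 * y + (2 * l + 1) - (2 * l + 1)) / 2 = y := by omega
      simp only [hg, if_neg h2, h3]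
  intro a ha b hb c hc d hd e he hsol
  obtain ⟨ya, hya, ha⟩ := key a ha
  obtain ⟨yb, hyb, hb⟩ := key b hb
  obtain ⟨yc, hyc, hc⟩ := key c hc
  obtain ⟨yd, hyd, hd⟩ := key d hd
  obtain ⟨ye, hye, he⟩ := key e he
  have la := hD ya hya
  have lb := hD yb hyb
  have lc := hD yc hyc
  have ld := hD yd hyd
  have le := hD ye hye
  have fa := hf ya hya
  have fb := hf yb hyb
  have fc := hf yc hyc
  have fd := hf yd hyd
  have fe := hf ye hye
  -- parity
  rcases hd with ⟨hd, gd⟩ | ⟨hd, gd⟩ <;> rcases he with ⟨he, ge⟩ | ⟨he, ge⟩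
  · have up : ∀ x y : ℕ, ((x = 2 * y ∧ g x = (2 * F + 1 : ℤ) * ((4 * l + 1 : ℤ) - 2 * x) + f y) ∨
        (x = 2 * y + (2 * l + 1) ∧ g x = (2 * F + 1 : ℤ) * (2 * x - (4 * l + 1 : ℤ)) + f y)) →
        ((x = 2 * y ∧ g x = (2 * F + 1 : ℤ) * ((4 * l + 1 : ℤ) - 2 * x) + f y) ∨
        (2 * F + 1 : ℤ) * ((4 * l + 1 : ℤ) - 2 * x) + f y + 2 * (2 * F + 1) ≤ g x) := by
      intro x y hx
      rcases hx with hx | ⟨hx, gx⟩
      · exact Or.inl hx
      · right
        rw [gx]
        have h1 : (1 : ℤ) ≤ 2 * x - (4 * l + 1) := by omega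
        nlinarith
    have hz : 2 * ((2 * F + 1 : ℤ) * ((4 * l + 1 : ℤ) - 2 * a) +
        (2 * F + 1 : ℤ) * ((4 * l + 1 : ℤ) - 2 * b) + (2 * F + 1 : ℤ) * ((4 * l + 1 : ℤ) - 2 * c)) =
        3 * ((2 * F + 1 : ℤ) * ((4 * l + 1 : ℤ) - 2 * d) +
        (2 * F + 1 : ℤ) * ((4 * l + 1 : ℤ) - 2 * e)) := by
      have : (2 * (a + b + c) : ℤ) = 3 * (d + e) := by exact_mod_cast hsol
      linear_combination (-2 * (2 * F + 1 : ℤ)) * this
    rcases up a ya ha with ⟨ha, ga⟩ | ga <;> rcases up b yb hb with ⟨hb, gb⟩ | gb <;>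
      rcases up c yc hc with ⟨hc, gc⟩ | gc
    · have hy : 2 * (ya + yb + yc) = 3 * (yd + ye) := by omega
      obtain ⟨h1, h2⟩ := h ya hya yb hyb yc hyc yd hyd ye hye hy
      constructor
      · linarith
      · intro h3
        obtain ⟨e1, e2, e3, e4⟩ := h2 (by linarith)
        omega
    all_goals
      constructor
      · linarith
      · intro h3
        exfalso
        linarith
  · exfalso; omega
  · exfalso; omega
  · have up : ∀ x y : ℕ, y ≤ l → ((x = 2 * y ∧ g x = (2 * F + 1 : ℤ) * ((4 * l + 1 : ℤ) - 2 * x) + f y) ∨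
        (x = 2 * y + (2 * l + 1) ∧ g x = (2 * F + 1 : ℤ) * (2 * x - (4 * l + 1 : ℤ)) + f y)) →
        ((x = 2 * y + (2 * l + 1) ∧ g x = (2 * F + 1 : ℤ) * (2 * x - (4 * l + 1 : ℤ)) + f y) ∨
        (2 * F + 1 : ℤ) * (2 * x - (4 * l + 1 : ℤ)) + f y + 2 * (2 * F + 1) ≤ g x) := by
      intro x y hyl hx
      rcases hx with ⟨hx, gx⟩ | hx
      · right
        rw [gx]
        have h1 : (1 : ℤ) ≤ (4 * l + 1) - 2 * x := by omega
        nlinarith
      · exact Or.inl hx
    have hz : 2 * ((2 * F + 1 : ℤ) * (2 * a - (4 * l + 1 : ℤ)) +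
        (2 * F + 1 : ℤ) * (2 * b - (4 * l + 1 : ℤ)) + (2 * F + 1 : ℤ) * (2 * c - (4 * l + 1 : ℤ))) =
        3 * ((2 * F + 1 : ℤ) * (2 * d - (4 * l + 1 : ℤ)) +
        (2 * F + 1 : ℤ) * (2 * e - (4 * l + 1 : ℤ))) := by
      have : (2 * (a + b + c) : ℤ) = 3 * (d + e) := by exact_mod_cast hsol
      linear_combination (2 * (2 * F + 1 : ℤ)) * this
    rcases up a ya la ha with ⟨ha, ga⟩ | ga <;> rcases up b yb lb hb with ⟨hb, gb⟩ | gb <;>
      rcases up c yc lc hc with ⟨hc, gc⟩ | gc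
    · have hy : 2 * (ya + yb + yc) = 3 * (yd + ye) := by omega
      obtain ⟨h1, h2⟩ := h ya hya yb hyb yc hyc yd hyd ye hye hy
      constructor
      · linarith
      · intro h3
        obtain ⟨e1, e2, e3, e4⟩ := h2 (by linarith)
        omega
    all_goals
      constructor
      · linarith
      · intro h3
        exfalso
        linarith

/-- The palindromic digit sets. -/
theorem pal (k : ℕ) : ∃ (D : Finset ℕ) (f : ℕ → ℤ), (∀ x ∈ D, x ≤ len k) ∧ D.card = 2 ^ k ∧
    (∀ x ∈ D, 0 ≤ f x ∧ f x ≤ wt k) ∧ Good D f := by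
  induction k with
  | zero =>
    refine ⟨{0}, fun _ => 0, ?_, ?_, ?_, ?_⟩
    · intro x hx
      rw [Finset.mem_singleton] at hx
      simp [hx, len]
    · simp
    · intro x _
      simp [wt]
    · intro a ha b hb c hc d hd e he _
      rw [Finset.mem_singleton] at ha hb hc hd he
      subst ha hb hc hd he
      simp
  | succ k ih =>
    obtain ⟨D, f, hD, hcard, hf, hgood⟩ := ih
    refine ⟨_, _, ?_, ?_, ?_, good_succ D f (len k) (wt k) hD hf hgood⟩
    · intro x hx
      rw [Finset.mem_union, Finset.mem_image, Finset.mem_image] at hx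
      rw [len]
      rcases hx with ⟨y, hy, rfl⟩ | ⟨y, hy, rfl⟩
      · have := hD y hy
        omega
      · have := hD y hy
        omega
    · rw [Finset.card_union_of_disjoint, Finset.card_image_of_injective, Finset.card_image_of_injective,
        hcard, pow_succ]
      · ring
      · intro x y hxy
        simp only at hxy
        omega
      · intro x y hxy
        simp only at hxy
        omega
      · rw [Finset.disjoint_left]
        intro x hx hx2
        rw [Finset.mem_image] at hx hx2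
        obtain ⟨y, hy, rfl⟩ := hx
        obtain ⟨z, hz, hzz⟩ := hx2
        have := hD y hy
        omega
    · intro x hx
      rw [Finset.mem_union, Finset.mem_image, Finset.mem_image] at hx
      have hlen : (len (k + 1) : ℤ) = 4 * len k + 1 := by rw [len]; push_cast; ring
      have hwt : (wt (k + 1) : ℤ) = (2 * wt k + 1) * (4 * len k + 1) + wt k := by
        rw [wt]; push_cast; rw [hlen]
      rcases hx with ⟨y, hy, rfl⟩ | ⟨y, hy, rfl⟩
      · have h1 := hD y hy
        have h2 : 2 * y ≤ 2 * len k := by omega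
        have h3 : 2 * y / 2 = y := by omega
        have h4 := hf y hy
        simp only [if_pos h2, h3]
        rw [hwt]
        have h5 : (0 : ℤ) ≤ (4 * len k + 1) - 2 * ((2 * y : ℕ) : ℤ) := by push_cast; omega
        have h6 : (4 * len k + 1) - 2 * ((2 * y : ℕ) : ℤ) ≤ 4 * len k + 1 := by push_cast; omega
        have h7 : (0 : ℤ) ≤ 2 * wt k + 1 := by positivity
        have h8 := mul_nonneg h7 h5
        have h9 := mul_le_mul_of_nonneg_left h6 h7
        constructor
        · linarith [h4.1]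
        · linarith [h4.2]
      · have h1 := hD y hy
        have h2 : ¬ (2 * y + (2 * len k + 1) ≤ 2 * len k) := by omega
        have h3 : (2 * y + (2 * len k + 1) - (2 * len k + 1)) / 2 = y := by omega
        have h4 := hf y hy
        simp only [if_neg h2, h3]
        rw [hwt]
        have h5 : (0 : ℤ) ≤ 2 * ((2 * y + (2 * len k + 1) : ℕ) : ℤ) - (4 * len k + 1) := by
          push_cast; omega
        have h6 : 2 * ((2 * y + (2 * len k + 1) : ℕ) : ℤ) - (4 * len k + 1) ≤ 4 * len k + 1 := by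
          push_cast; omega
        have h7 : (0 : ℤ) ≤ 2 * wt k + 1 := by positivity
        have h8 := mul_nonneg h7 h5
        have h9 := mul_le_mul_of_nonneg_left h6 h7
        constructor
        · linarith [h4.1]
        · linarith [h4.2]

end Pool.Agent.Run7.h425
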