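import Pool.Agent.Run7.h425.Pal

set_option autoImplicit false

namespace Pool.Agent.Run7.h425

open Finset

/-- All solutions of the equation in the set are constant. -/
def OnlyTriv (A : Finset ℕ) : Prop :=
  ∀ a ∈ A, ∀ b ∈ A, ∀ c ∈ A, ∀ d ∈ A, ∀ e ∈ A, 2 * (a + b + c) = 3 * (d + e) →
    a = e ∧ b = e ∧ c = e ∧ d = e

theorem tensor (D : Finset ℕ) (f : ℕ → ℤ) (l F : ℕ) (hD : ∀ x ∈ D, x ≤ l)
    (hf : ∀ x ∈ D, 0 ≤ f x ∧ f x ≤ F) (h : Good D f) (m : ℕ) :
    ∃ A : Finset ℕ, A ⊆ Finset.range ((6 * l + 1) ^ m) ∧ OnlyTriv A ∧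
      D.card ^ m ≤ (m * F + 1) * A.card := by
  classical
  set V : Finset (Fin m → ℕ) := Fintype.piFinset (fun _ : Fin m => D) with hV
  have hVmem : ∀ v ∈ V, ∀ i, v i ∈ D := fun v hv i => (Fintype.mem_piFinset.1 hv) i
  set w : (Fin m → ℕ) → ℕ := fun v => (∑ i, f (v i)).toNat with hw
  have hsum0 : ∀ v ∈ V, 0 ≤ ∑ i, f (v i) := fun v hv =>
    Finset.sum_nonneg fun i _ => (hf _ (hVmem v hv i)).1
  have hsumle : ∀ v ∈ V, ∑ i, f (v i) ≤ (m * F : ℕ) := by
    intro v hv
    calc ∑ i, f (v i) ≤ ∑ _i : Fin m, (F : ℤ) := Finset.sum_le_sum fun i _ => (hf _ (hVmem v hv i)).2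
      _ = (m * F : ℕ) := by simp
  have hmaps : ∀ v ∈ V, w v ∈ Finset.range (m * F + 1) := by
    intro v hv
    rw [Finset.mem_range]
    have h1 := hsum0 v hv
    have h2 := hsumle v hv
    simp only [hw]
    omega
  obtain ⟨s, hs, hmax⟩ := Finset.exists_max_image (Finset.range (m * F + 1))
    (fun s => (V.filter (fun v => w v = s)).card) ⟨0, Finset.mem_range.2 (Nat.succ_pos _)⟩
  have hcard : V.card ≤ (m * F + 1) * (V.filter (fun v => w v = s)).card := by
    rw [Finset.card_eq_sum_card_fiberwise hmaps]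
    calc ∑ t ∈ Finset.range (m * F + 1), (V.filter (fun v => w v = t)).card
        ≤ ∑ _t ∈ Finset.range (m * F + 1), (V.filter (fun v => w v = s)).card :=
          Finset.sum_le_sum fun t ht => hmax t ht
      _ = (m * F + 1) * (V.filter (fun v => w v = s)).card := by simp
  set B := V.filter (fun v => w v = s) with hB
  have hBV : ∀ v ∈ B, v ∈ V := fun v hv => (Finset.mem_filter.1 hv).1
  have hBs : ∀ v ∈ B, ∑ i, f (v i) = (s : ℤ) := by
    intro v hv
    have h1 := (Finset.mem_filter.1 hv).2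
    have h2 := hsum0 v (hBV v hv)
    simp only [hw] at h1
    omega
  set b : ℕ := 6 * l + 1 with hb
  have hinj : Set.InjOn (Behrend.map b : (Fin m → ℕ) → ℕ) {x | ∀ i, x i < b} := Behrend.map_injOn
  have hlt : ∀ v ∈ B, ∀ i, v i ≤ l := fun v hv i => hD _ (hVmem v (hBV v hv) i)
  refine ⟨B.image (Behrend.map b), ?_, ?_, ?_⟩
  · intro x hx
    rw [Finset.mem_image] at hx
    obtain ⟨v, hv, rfl⟩ := hx
    rw [Finset.mem_range]
    have h1 : ∀ (n : ℕ) (u : Fin n → ℕ), (∀ i, u i < b) → Behrend.map b u < b ^ n := by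
      intro n
      induction n with
      | zero => intro u _; simp
      | succ n ih =>
        intro u hu
        rw [Behrend.map_succ', pow_succ]
        have h2 := ih (u ∘ Fin.succ) (fun i => hu _)
        have h3 := hu 0
        calc u 0 + Behrend.map b (u ∘ Fin.succ) * b < b + Behrend.map b (u ∘ Fin.succ) * b := by omega
          _ = (Behrend.map b (u ∘ Fin.succ) + 1) * b := by ring
          _ ≤ b ^ n * b := Nat.mul_le_mul_right _ h2
    apply h1
    intro i
    have := hlt v hv i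
    omega
  · intro a ha b' hb' c hc d hd e he hsol
    rw [Finset.mem_image] at ha hb' hc hd he
    obtain ⟨va, hva, rfl⟩ := ha
    obtain ⟨vb, hvb, rfl⟩ := hb'
    obtain ⟨vc, hvc, rfl⟩ := hc
    obtain ⟨vd, hvd, rfl⟩ := hd
    obtain ⟨ve, hve, rfl⟩ := he
    have h1 : Behrend.map b (2 • (va + vb + vc)) = Behrend.map b (3 • (vd + ve)) := by
      rw [map_nsmul, map_nsmul, map_add, map_add, map_add, smul_eq_mul, smul_eq_mul]
      exact hsol
    have h2 : 2 • (va + vb + vc) = 3 • (vd + ve) := by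
      apply hinj _ _ h1
      · intro i
        have e1 := hlt va hva i
        have e2 := hlt vb hvb i
        have e3 := hlt vc hvc i
        simp only [Pi.smul_apply, Pi.add_apply, smul_eq_mul]
        omega
      · intro i
        have e1 := hlt vd hvd i
        have e2 := hlt ve hve i
        simp only [Pi.smul_apply, Pi.add_apply, smul_eq_mul]
        omega
    have h3 : ∀ i, 2 * (va i + vb i + vc i) = 3 * (vd i + ve i) := by
      intro i
      have := congrFun h2 i
      simpa only [Pi.smul_apply, Pi.add_apply, smul_eq_mul] using this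
    have h4 : ∀ i, 3 * (f (vd i) + f (ve i)) ≤ 2 * (f (va i) + f (vb i) + f (vc i)) := fun i =>
      (h _ (hVmem va (hBV va hva) i) _ (hVmem vb (hBV vb hvb) i) _ (hVmem vc (hBV vc hvc) i)
        _ (hVmem vd (hBV vd hvd) i) _ (hVmem ve (hBV ve hve) i) (h3 i)).1
    have h5 : ∑ i, 3 * (f (vd i) + f (ve i)) = ∑ i, 2 * (f (va i) + f (vb i) + f (vc i)) := by
      rw [← Finset.mul_sum, ← Finset.mul_sum, Finset.sum_add_distrib, Finset.sum_add_distrib,
        Finset.sum_add_distrib, hBs va hva, hBs vb hvb, hBs vc hvc, hBs vd hvd, hBs ve hve]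
      ring
    have h6 : ∀ i, 3 * (f (vd i) + f (ve i)) = 2 * (f (va i) + f (vb i) + f (vc i)) := by
      intro i
      exact (Finset.sum_eq_sum_iff_of_le (fun i _ => h4 i)).1 h5 i (Finset.mem_univ i)
    have h7 : ∀ i, va i = ve i ∧ vb i = ve i ∧ vc i = ve i ∧ vd i = ve i := fun i =>
      (h _ (hVmem va (hBV va hva) i) _ (hVmem vb (hBV vb hvb) i) _ (hVmem vc (hBV vc hvc) i)
        _ (hVmem vd (hBV vd hvd) i) _ (hVmem ve (hBV ve hve) i) (h3 i)).2 (h6 i).symm
    have e1 : va = ve := funext fun i => (h7 i).1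
    have e2 : vb = ve := funext fun i => (h7 i).2.1
    have e3 : vc = ve := funext fun i => (h7 i).2.2.1
    have e4 : vd = ve := funext fun i => (h7 i).2.2.2
    rw [e1, e2, e3, e4]
    exact ⟨rfl, rfl, rfl, rfl⟩
  · rw [Finset.card_image_of_injOn]
    · have : V.card = D.card ^ m := by simp [hV]
      rw [← this]
      exact hcard
    · intro x hx y hy hxy
      apply hinj _ _ hxy
      · intro i
        have := hlt x hx i
        omega
      · intro i
        have := hlt y hy i
        omega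

end Pool.Agent.Run7.h425
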